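import Pool.Graph.R_seed8.Results.MP_7e1ced_an.BorelClasses

/-!
# Grothendieck spaces `c_{0,I}`: `F_σδ` P-ideals, and complemented embeddings

The library proves that there are exactly `2 ^ ℵ₀` isomorphism classes of Grothendieck spaces
`c_{0,I}` for analytic and for Borel ideals. Here the count is made for the much smaller class of
`F_σδ` P-ideals, and isomorphism is weakened to complemented embeddability: there is a family of
continuum many `F_σδ` P-ideals with Grothendieck spaces `c_{0,I}` such that none of these spaces is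
isomorphic to a complemented subspace of another.
-/

set_option autoImplicit false

open Filter Topology Set Cardinal
open Pool.Agent.R464 Pool.Agent.R464.GB Pool.Agent.R464.GI

namespace Pool.Agent.Results.MP_7e1ced_an.ComplementedAntichain

/-- `I` is an `F_σδ` subset of the Cantor space: a countable intersection of countable unions of
closed sets. -/
def FsdIdeal (I : Idl) : Prop :=
  ∃ F : ℕ → ℕ → Set (ℕ → Bool), (∀ j N, IsClosed (F j N)) ∧
    {f : ℕ → Bool | {n | f n = true} ∈ I.1} = ⋂ j, ⋃ N, F j N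

/-- `I` is a P-ideal: for members `A 0, A 1, ...` of `I` there is a member `B` of `I` such that
every `A k \ B` is finite. -/
def PIdeal (I : Idl) : Prop :=
  ∀ A : ℕ → Set ℕ, (∀ k, A k ∈ I.1) → ∃ B ∈ I.1, ∀ k, (A k \ B).Finite

/-- `c_{0,I}` is isomorphic to a complemented subspace of `c_{0,J}`: the identity of `c_{0,I}`
factors as a product `R T` of bounded operators through `c_{0,J}`. -/
def ComplIn (I J : Idl) : Prop :=
  ∃ (T : X I →L[ℝ] X J) (R : X J →L[ℝ] X I), ∀ x, R (T x) = x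

theorem closed_Cv (b : Blk) (n : ℕ) (s : ℝ) :
    IsClosed {f : ℕ → Bool | Cv b n {p | f p = true} s} := by
  have h : {f : ℕ → Bool | Cv b n {p | f p = true} s} =
      (fun (f : ℕ → Bool) (p : {q // q ∈ b.D n}) => f p.1) ⁻¹'
        {g : {q // q ∈ b.D n} → Bool | ∃ I : Finset ℕ, (I.card : ℝ) ≤ s ∧
          ∀ p : {q // q ∈ b.D n}, g p = true → ∃ i ∈ I, b.inc i p.1 = true} := by
    ext f
    constructor
    · rintro ⟨I, hI, hc⟩
      exact ⟨I, hI, fun p hp => hc p.1 p.2 hp⟩
    · rintro ⟨I, hI, hc⟩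
      exact ⟨I, hI, fun p hp hfp => hc ⟨p, hp⟩ hfp⟩
  rw [h]
  refine IsClosed.preimage ?_ ?_
  · exact continuous_pi fun p => continuous_apply p.1
  · exact isClosed_discrete _

theorem fsd_JS (b : Blk) (S : Set ℕ) (hS : S.Infinite) : FsdIdeal (jdl b S hS) := by
  refine ⟨fun j N => ⋂ n : ℕ, {f : ℕ → Bool | (N ≤ n ∧ n ∈ S) →
        Cv b n {p | f p = true} (1 / ((j : ℝ) + 1) * b.r n)}, ?_, ?_⟩
  · intro j N
    refine isClosed_iInter fun n => ?_
    by_cases h1 : N ≤ n ∧ n ∈ S
    · have : {f : ℕ → Bool | (N ≤ n ∧ n ∈ S) →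
          Cv b n {p | f p = true} (1 / ((j : ℝ) + 1) * b.r n)} =
          {f : ℕ → Bool | Cv b n {p | f p = true} (1 / ((j : ℝ) + 1) * b.r n)} := by
        ext f
        exact ⟨fun hf => hf h1, fun hf _ => hf⟩
      rw [this]
      exact closed_Cv b n _
    · have : {f : ℕ → Bool | (N ≤ n ∧ n ∈ S) →
          Cv b n {p | f p = true} (1 / ((j : ℝ) + 1) * b.r n)} = Set.univ := by
        ext f
        exact ⟨fun _ => trivial, fun _ hh => absurd hh h1⟩
      rw [this]
      exact isClosed_univ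
  · ext f
    rw [Set.mem_iInter]
    constructor
    · intro hf j
      obtain ⟨N, hN⟩ := (mem_JS_iff b S {n | f n = true}).1 hf j
      exact Set.mem_iUnion.2 ⟨N, Set.mem_iInter.2 fun n => hN n⟩
    · intro hf
      refine (mem_JS_iff b S {n | f n = true}).2 fun j => ?_
      obtain ⟨N, hN⟩ := Set.mem_iUnion.1 (hf j)
      exact ⟨N, fun n hn => (Set.mem_iInter.1 hN n) hn⟩

theorem mem_iUnion_le (b : Blk) (S : Set ℕ) (hS : S.Infinite) (A : ℕ → Set ℕ)
    (hA : ∀ k, A k ∈ (jdl b S hS).1) (k : ℕ) : (⋃ i ∈ Finset.range (k + 1), A i) ∈ JS b S := by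
  induction k with
  | zero =>
    have h0 : A 0 ∈ JS b S := hA 0
    simpa using h0
  | succ k ih =>
    rw [Finset.range_add_one, Finset.set_biUnion_insert]
    exact (isIdeal_JS b S hS).union _ (hA (k + 1)) _ ih

theorem pideal_JS (b : Blk) (S : Set ℕ) (hS : S.Infinite) : PIdeal (jdl b S hS) := by
  classical
  intro A hA
  have h1 : ∀ k : ℕ, ∃ N, ∀ n, N ≤ n → n ∈ S →
      Cv b n (⋃ i ∈ Finset.range (k + 1), A i) (1 / ((k : ℝ) + 1) * b.r n) := by
    intro k
    exact mem_iUnion_le b S hS A hA k (1 / ((k : ℝ) + 1)) (by positivity)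
  choose N hN using h1
  obtain ⟨M, hMN, hMm⟩ : ∃ M : ℕ → ℕ, (∀ k, N k ≤ M k) ∧ StrictMono M := by
    refine ⟨fun k => k + ∑ i ∈ Finset.range (k + 1), N i, fun k => ?_, ?_⟩
    · have h2 : N k ≤ ∑ i ∈ Finset.range (k + 1), N i :=
        Finset.single_le_sum (fun i _ => Nat.zero_le _) (Finset.mem_range.2 (Nat.lt_succ_self k))
      exact h2.trans (Nat.le_add_left _ _)
    · refine strictMono_nat_of_lt_succ fun k => ?_
      show k + ∑ i ∈ Finset.range (k + 1), N i < k + 1 + ∑ i ∈ Finset.range (k + 1 + 1), N i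
      rw [Finset.sum_range_succ _ (k + 1)]
      omega
  refine ⟨{p | ∃ k, p ∈ A k ∧ ∀ n, p ∈ b.D n → M k ≤ n}, ?_, ?_⟩
  · intro ε hε
    obtain ⟨k0, hk0⟩ := exists_nat_one_div_lt hε
    refine ⟨M k0, fun n hn hnS => ?_⟩
    have hex : ∃ m, n < M m := ⟨n + 1, lt_of_lt_of_le (Nat.lt_succ_self n) (hMm.id_le (n + 1))⟩
    obtain ⟨m, hm, hmin⟩ : ∃ m, n < M m ∧ ∀ m', m' < m → M m' ≤ n :=
      ⟨Nat.find hex, Nat.find_spec hex, fun m' h => not_lt.1 (Nat.find_min hex h)⟩
    have hk0m : k0 < m := hMm.lt_iff_lt.1 (lt_of_le_of_lt hn hm)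
    obtain ⟨k, hk⟩ : ∃ k, m = k + 1 := ⟨m - 1, by omega⟩
    have hkn : M k ≤ n := hmin k (by omega)
    have hk0k : k0 ≤ k := by omega
    refine (hN k n ((hMN k).trans hkn) hnS).mono ?_ ?_
    · rintro p hp ⟨i, hpi, hi⟩
      have h2 : M i ≤ n := hi n hp
      have h3 : i < k + 1 := by
        rw [← hk]
        exact hMm.lt_iff_lt.1 (lt_of_le_of_lt h2 hm)
      exact Set.mem_biUnion (by simpa using h3) hpi
    · refine mul_le_mul_of_nonneg_right ?_ (by positivity)
      refine le_trans ?_ hk0.le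
      have : (k0 : ℝ) ≤ k := by exact_mod_cast hk0k
      exact one_div_le_one_div_of_le (by positivity) (by linarith)
  · intro k
    refine Set.Finite.subset (Set.Finite.biUnion (Set.finite_Iio (M k))
      (t := fun n => (b.D n : Set ℕ)) (fun n _ => Finset.finite_toSet _)) ?_
    rintro p ⟨hp, hpB⟩
    by_contra hcon
    refine hpB ⟨k, hp, fun n hn => not_lt.1 fun hlt => ?_⟩
    exact hcon (Set.mem_biUnion (show n ∈ Set.Iio (M k) from hlt) (by simpa using hn))

/-- The spaces `c_{0,J_S}` and `c_{0,J_{S'}}`: when `S \ S'` is infinite, the first is not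
isomorphic to a complemented subspace of the second. -/
theorem noncompl (h1 : A1Stm) (h2 : A2Stm) (h3 : BStm) (b : Blk) (S S' : Set ℕ)
    (hS : S.Infinite) (hS' : S'.Infinite) (hinf : (S \ S').Infinite) :
    ¬ ComplIn (jdl b S hS) (jdl b S' hS') := by
  classical
  rintro ⟨T, R, hRT⟩
  have hd0 : ∀ n, ∃ y : X (jdl b S hS), ∀ p, y.1 p = ind (b.D n) p := by
    intro n
    refine exists_supp (I := jdl b S hS) (↑(b.D n)) ?_ (ind (b.D n)) 1 ?_ ?_
    · exact (jdl b S hS).2.fin _ (Finset.finite_toSet _)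
    · intro p
      unfold ind
      by_cases hp : p ∈ (↑(b.D n) : Set ℕ)
      · rw [Set.indicator_of_mem hp]; simp
      · rw [Set.indicator_of_notMem hp]; simp
    · intro p hp
      unfold ind
      exact Set.indicator_of_notMem hp _
  choose d hd using hd0
  have hsum : ∀ (F : Finset ℕ) (p : ℕ), ∑ k ∈ F, |(T (d k)).1 p| ≤ ‖T‖ :=
    fun F p => Nis.sum_abs_le (b := b) T d hd F p
  have hv0 : ∀ n, ∃ y : X (jdl b S' hS'), ∀ p,
      y.1 p = if p ∈ W b n then 0 else (T (d n)).1 p := by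
    intro n
    apply exists_dom (T (d n))
    intro p
    by_cases hp : p ∈ W b n
    · rw [if_pos hp, abs_zero]; exact abs_nonneg _
    · rw [if_neg hp]
  have hw0 : ∀ n, ∃ y : X (jdl b S' hS'), ∀ p,
      y.1 p = if p ∈ W b n then (T (d n)).1 p else 0 := by
    intro n
    apply exists_dom (T (d n))
    intro p
    by_cases hp : p ∈ W b n
    · rw [if_pos hp]
    · rw [if_neg hp, abs_zero]; exact abs_nonneg _
  choose v hv using hv0
  choose w hw using hw0
  have hvw : ∀ n, T (d n) = v n + w n := by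
    intro n
    apply X.ext
    intro p
    rw [add_val, hv, hw]
    by_cases hp : p ∈ W b n
    · rw [if_pos hp, if_pos hp, zero_add]
    · rw [if_neg hp, if_neg hp, add_zero]
  have hone : ∀ n, ∀ p ∈ b.D n, (R (v n)).1 p + (R (w n)).1 p = 1 := by
    intro n p hp
    have h4 : R (v n) + R (w n) = d n := by
      rw [← map_add, ← hvw, hRT]
    rw [← add_val, h4, hd, ind, Set.indicator_of_mem (by simpa using hp)]
  have hor : ∀ n, ¬ Cv b n {p | 1 / 2 ≤ |(R (v n)).1 p|} ((b.r n : ℝ) / 4) ∨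
      ¬ Cv b n {p | 1 / 2 ≤ |(R (w n)).1 p|} ((b.r n : ℝ) / 4) := by
    intro n
    by_contra hcon
    push Not at hcon
    obtain ⟨hc1, hc2⟩ := hcon
    apply not_Cv_univ b n
    refine (hc1.union hc2).mono ?_ ?_
    · intro p hp _
      have h5 := hone n p hp
      by_cases h6 : 1 / 2 ≤ |(R (v n)).1 p|
      · left; exact h6
      · right
        push Not at h6
        show 1 / 2 ≤ |(R (w n)).1 p|
        have h7 := (abs_lt.1 h6).2
        have h8 : 1 / 2 ≤ (R (w n)).1 p := by linarith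
        exact h8.trans (le_abs_self _)
    · linarith
  have hsplit : ({n | n ∈ S \ S' ∧ ¬ Cv b n {p | 1 / 2 ≤ |(R (v n)).1 p|} ((b.r n : ℝ) / 4)} ∪
      {n | n ∈ S \ S' ∧ ¬ Cv b n {p | 1 / 2 ≤ |(R (w n)).1 p|} ((b.r n : ℝ) / 4)}).Infinite := by
    refine hinf.mono ?_
    intro n hn
    rcases hor n with h | h
    · left; exact ⟨hn, h⟩
    · right; exact ⟨hn, h⟩
  rcases Set.infinite_union.1 hsplit with hA | hA
  · refine h2 b S S' hS hS' R (fun n => T (d n)) v ‖T‖ hsum
      (h1 b S S' hS hS' T d hd) ?_ ?_ _ hA ?_ ?_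
    · intro n p hp
      rw [hv, if_neg hp]
    · intro n p hp
      rw [hv, if_pos hp]
    · rintro n ⟨hn, _⟩
      exact ⟨hn.1, hn.2⟩
    · rintro n ⟨_, hn⟩
      exact hn
  · refine h3 b S S' hS hS' R (fun n => T (d n)) w ‖T‖ hsum ?_ ?_ _ hA ?_ ?_
    · intro n p hp
      rw [hw, if_pos hp]
    · intro n p hp
      rw [hw, if_neg hp]
    · rintro n ⟨hn, _⟩
      exact hn.1
    · rintro n ⟨_, hn⟩
      exact hn

/-- An isomorphism is in particular a complemented embedding. -/
theorem ComplIn.of_equiv {I J : Idl} (e : X I ≃L[ℝ] X J) : ComplIn I J :=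
  ⟨(e : X I →L[ℝ] X J), (e.symm : X J →L[ℝ] X I), fun x => e.symm_apply_apply x⟩

/-- `F_σδ` ideals are Borel. -/
theorem FsdIdeal.borel {I : Idl} (h : FsdIdeal I) : BorelIdeal I := by
  obtain ⟨F, hF, hI⟩ := h
  unfold BorelIdeal
  rw [hI]
  exact MeasurableSet.iInter fun j => MeasurableSet.iUnion fun N => (hF j N).measurableSet

/-- **Continuum many Grothendieck spaces `c_{0,I}` from `F_σδ` P-ideals, none complemented in
another.**
(1) There is a family, indexed by the points of the Cantor space, of `F_σδ` P-ideals such that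
every `c_{0,J x}` is Grothendieck and, for `x ≠ y`, the space `c_{0,J x}` is not isomorphic to a
complemented subspace of `c_{0,J y}`.
(2) So there are exactly continuum many isomorphism classes of Grothendieck spaces `c_{0,I}` with
`I` an `F_σδ` P-ideal; and exactly continuum many for every class `P` of analytic ideals that
contains the `F_σδ` P-ideals (e.g. the Borel ideals, the analytic ideals, the analytic
P-ideals). -/
theorem result :
    (∃ J : (ℕ → Bool) → Idl,
      (∀ x, FsdIdeal (J x) ∧ PIdeal (J x) ∧ Groth (X (J x))) ∧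
      ∀ x y, x ≠ y → ¬ ComplIn (J x) (J y)) ∧
    Cardinal.mk (Quotient (GB.isoSetoid fun I => FsdIdeal I ∧ PIdeal I)) =
      Cardinal.continuum ∧
    (∀ P : Idl → Prop, (∀ I, P I → AnalyticIdeal I) → (∀ I, FsdIdeal I → PIdeal I → P I) →
      Cardinal.mk (Quotient (GB.isoSetoid P)) = Cardinal.continuum) := by
  obtain ⟨b⟩ := blkStm
  have hG : ∀ (S : Set ℕ) (hS : S.Infinite), Groth (X (jdl b S hS)) := fun S hS =>
    GI.groStm GI.modStm GI.cnvStm GI.vhsStm GI.helStm GI.complete_X (jdl b S hS)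
      (exhGen GI.rosStm (jdl b S hS) (GB.pprStm covStm b S hS))
  have hnc : ∀ x y, x ≠ y →
      ¬ ComplIn (jdl b (ad x) (ad_infinite x)) (jdl b (ad y) (ad_infinite y)) := fun x y hxy =>
    noncompl (a1Stm covStm (nosStm adfStm)) (a2Stm (nosStm adfStm)) (bStm covStm (nosStm adfStm))
      b _ _ _ _ (ad_diff x y hxy)
  have key : ∀ P : Idl → Prop, (∀ I, P I → AnalyticIdeal I) →
      (∀ I, FsdIdeal I → PIdeal I → P I) →
      Cardinal.mk (Quotient (isoSetoid P)) = Cardinal.continuum := by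
    intro P hP1 hP2
    refine le_antisymm ?_ ?_
    · refine Cardinal.mk_quotient_le.trans (le_trans ?_ cntStm.2)
      refine Cardinal.mk_le_of_injective (f := fun I : {I : Idl // P I ∧ Groth (X I)} =>
        (⟨I.1, hP1 I.1 I.2.1⟩ : {I : Idl // AnalyticIdeal I})) ?_
      intro I J h
      exact Subtype.ext (congrArg (fun z : {I : Idl // AnalyticIdeal I} => z.1) h)
    · have h1 : Cardinal.mk (ℕ → Bool) = Cardinal.continuum := by simp
      rw [← h1]
      refine Cardinal.mk_le_of_injective (f := fun x : ℕ → Bool =>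
        (Quotient.mk (isoSetoid P) ⟨jdl b (ad x) (ad_infinite x),
          hP2 _ (fsd_JS b _ _) (pideal_JS b _ _), hG _ _⟩)) ?_
      intro x y hxy
      by_contra hne
      obtain ⟨e⟩ := Quotient.exact hxy
      exact hnc x y hne (ComplIn.of_equiv e)
  refine ⟨⟨fun x => jdl b (ad x) (ad_infinite x), fun x => ⟨fsd_JS b _ _, pideal_JS b _ _,
    hG _ _⟩, hnc⟩, ?_, key⟩
  exact key _ (fun I h => cntStm.1 I h.1.borel) (fun I h h' => ⟨h, h'⟩)

end Pool.Agent.Results.MP_7e1ced_an.ComplementedAntichain
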